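import Pool.Agent.Helper28.Res.T3

/-!
# Project RES (MP_d365ae_co), route A, leaf LA3: the codegree inequality

`c` bounds all codegrees, `U` is any set of vertices.  Through every pair `p` of `U` at least
`dg F U p + (|U| - 2) - c` triples of `U` are missing; summing over the pairs gives (*).
-/

namespace Helper54.Res

open Finset Res12 Helper28.Res

set_option linter.unusedSectionVars false

variable {V : Type} [Fintype V] [DecidableEq V]

/-- the missing triples inside `U` -/
def miss (F : Finset (Finset V)) (U : Finset V) : Finset (Finset V) :=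
  (U.powersetCard 3).filter (fun q => q ∉ F)

/-- the missing triples inside `U` through `p` -/
def missAt (F : Finset (Finset V)) (U p : Finset V) : Finset (Finset V) :=
  (miss F U).filter (fun q => p ⊆ q)

theorem mem_miss {F : Finset (Finset V)} {U q : Finset V} :
    q ∈ miss F U ↔ q ⊆ U ∧ q.card = 3 ∧ q ∉ F := by
  simp [miss, mem_powersetCard, and_assoc]

/-- third vertices inside `U` completing `p` to an edge -/
def inN (F : Finset (Finset V)) (U p : Finset V) : Finset V :=
  (U \ p).filter (fun z => insert z p ∈ F)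

theorem insert_inj_of_notMem {p : Finset V} {z z' : V} (hz : z ∉ p) (h : insert z p = insert z' p) :
    z = z' := by
  have h1 : z ∈ insert z' p := h ▸ mem_insert_self z p
  exact (mem_insert.1 h1).resolve_right hz

/-- the pair `p` has at most `c` third vertices: those inside `U` and those outside -/
theorem inN_add_dg_le {F : Finset (Finset V)} {c : ℕ} (hc : ∀ a b, (N F a b).card ≤ c)
    {U p : Finset V} (h3 : ∀ e ∈ F, e.card = 3) (hp : p ⊆ U) (hp2 : p.card = 2) :
    (inN F U p).card + dg F U p ≤ c := by
  classical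
  obtain ⟨a, b, hab, rfl⟩ := card_eq_two.1 hp2
  -- the outside third vertices
  have hout : dg F U {a, b} ≤ ((N F a b).filter (fun z => z ∉ U)).card := by
    unfold dg
    refine card_le_card_of_surjOn (fun z => insert z ({a, b} : Finset V)) ?_
    intro e he
    have he' : e ∈ F.filter (fun e => e ∩ U = {a, b}) := he
    obtain ⟨heF, heU⟩ := mem_filter.1 he'
    have hsub : ({a, b} : Finset V) ⊆ e := by rw [← heU]; exact inter_subset_left
    have hcd : (e \ {a, b}).card = 1 := by
      rw [card_sdiff_of_subset hsub, h3 e heF, hp2]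
    obtain ⟨z, hz⟩ := card_eq_one.1 hcd
    have hzm : z ∈ e \ {a, b} := by rw [hz]; exact mem_singleton_self z
    have hins : insert z ({a, b} : Finset V) = e := by
      rw [insert_eq, ← hz, sdiff_union_of_subset hsub]
    have hzU : z ∉ U := by
      intro hzU
      have : z ∈ e ∩ U := mem_inter.2 ⟨(mem_sdiff.1 hzm).1, hzU⟩
      rw [heU] at this
      exact (mem_sdiff.1 hzm).2 this
    refine ⟨z, ?_, hins⟩
    rw [mem_coe, mem_filter, mem_N]
    refine ⟨?_, hzU⟩
    have hperm : ({a, b, z} : Finset V) = insert z {a, b} := by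
      ext v; simp only [mem_insert, mem_singleton]; tauto
    rw [hperm, hins]
    exact heF
  have hin : (inN F U {a, b}).card ≤ ((N F a b).filter (fun z => ¬ z ∉ U)).card := by
    apply card_le_card
    intro z hz
    obtain ⟨hz1, hz2⟩ := mem_filter.1 hz
    rw [mem_filter, mem_N, not_not]
    refine ⟨?_, (mem_sdiff.1 hz1).1⟩
    have hperm : ({a, b, z} : Finset V) = insert z {a, b} := by
      ext v; simp only [mem_insert, mem_singleton]; tauto
    rw [hperm]; exact hz2
  have h1 := card_filter_add_card_filter_not (s := N F a b) (fun z => z ∉ U)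
  have h2 := hc a b
  omega

/-- the third vertices inside `U` are either neighbours of `p` or give missing triples -/
theorem inN_add_missAt {F : Finset (Finset V)} {U p : Finset V} (hp : p ⊆ U) (hp2 : p.card = 2) :
    (inN F U p).card + (missAt F U p).card = U.card - 2 := by
  classical
  have hmiss : (missAt F U p).card = ((U \ p).filter (fun z => ¬ insert z p ∈ F)).card := by
    symm
    refine card_bij (fun z _ => insert z p) ?_ ?_ ?_
    · intro z hz
      obtain ⟨hz1, hz2⟩ := mem_filter.1 hz
      obtain ⟨hz3, hz4⟩ := mem_sdiff.1 hz1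
      unfold missAt
      rw [mem_filter, mem_miss]
      refine ⟨⟨insert_subset hz3 hp, ?_, hz2⟩, subset_insert _ _⟩
      rw [card_insert_of_notMem hz4, hp2]
    · intro z hz z' _ h
      exact insert_inj_of_notMem (mem_sdiff.1 (mem_filter.1 hz).1).2 h
    · intro q hq
      unfold missAt at hq
      rw [mem_filter, mem_miss] at hq
      obtain ⟨⟨h1, h2, h3⟩, h4⟩ := hq
      have hcd : (q \ p).card = 1 := by rw [card_sdiff_of_subset h4, h2, hp2]
      obtain ⟨z, hz⟩ := card_eq_one.1 hcd
      have hzm : z ∈ q \ p := by rw [hz]; exact mem_singleton_self z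
      have hins : insert z p = q := by rw [insert_eq, ← hz, sdiff_union_of_subset h4]
      refine ⟨z, ?_, hins⟩
      rw [mem_filter, mem_sdiff, hins]
      exact ⟨⟨h1 (mem_sdiff.1 hzm).1, (mem_sdiff.1 hzm).2⟩, h3⟩
  have h1 := card_filter_add_card_filter_not (s := U \ p) (fun z => insert z p ∈ F)
  rw [card_sdiff_of_subset hp, hp2] at h1
  rw [hmiss]
  exact h1

/-- every missing triple contains three pairs -/
theorem sum_missAt (F : Finset (Finset V)) (U : Finset V) :
    ∑ p ∈ U.powersetCard 2, (missAt F U p).card = 3 * (miss F U).card := by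
  classical
  unfold missAt
  simp_rw [card_filter]
  rw [sum_comm, mul_comm, ← smul_eq_mul, ← sum_const]
  apply sum_congr rfl
  intro q hq
  obtain ⟨h1, h2, -⟩ := mem_miss.1 hq
  rw [← card_filter]
  have : (U.powersetCard 2).filter (fun p => p ⊆ q) = q.powersetCard 2 := by
    ext p
    simp only [mem_filter, mem_powersetCard]
    constructor
    · rintro ⟨⟨-, h⟩, h'⟩; exact ⟨h', h⟩
    · rintro ⟨h, h'⟩; exact ⟨⟨h.trans h1, h'⟩, h⟩
  rw [this, card_powersetCard, h2]
  rfl

/-- **One pair.** -/
theorem pair_ineq {F : Finset (Finset V)} {c : ℕ} (hc : ∀ a b, (N F a b).card ≤ c)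
    (h3 : ∀ e ∈ F, e.card = 3) {U p : Finset V} (hp : p ∈ U.powersetCard 2) :
    dg F U p + (U.card - 2) ≤ c + (missAt F U p).card := by
  obtain ⟨h1, h2⟩ := mem_powersetCard.1 hp
  have := inN_add_dg_le hc h3 h1 h2
  have := inN_add_missAt (F := F) h1 h2
  omega

/-- **The codegree inequality**, natural number form, any set `U`. -/
theorem codeg_sum {F : Finset (Finset V)} {c : ℕ} (hc : ∀ a b, (N F a b).card ≤ c)
    (h3 : ∀ e ∈ F, e.card = 3) (U : Finset V) :
    ∑ p ∈ U.powersetCard 2, dg F U p + (U.card - 2) * U.card.choose 2 ≤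
      c * U.card.choose 2 + 3 * (miss F U).card := by
  have h := sum_le_sum (fun p (hp : p ∈ U.powersetCard 2) => pair_ineq hc h3 hp)
  rw [sum_add_distrib, sum_add_distrib, sum_const, sum_const, card_powersetCard, smul_eq_mul,
    smul_eq_mul, sum_missAt] at h
  rw [mul_comm (U.card - 2), mul_comm c]
  exact h

/-- **(*)** with `c = 3 s - j` and `|U| = 3 s`: `j C(3s,2) + Σ (dg p - 2) ≤ 3 μ`. -/
theorem codeg_star {F : Finset (Finset V)} {s j c : ℕ} (hcj : c + j = 3 * s)
    (hc : ∀ a b, (N F a b).card ≤ c) (h3 : ∀ e ∈ F, e.card = 3) {U : Finset V}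
    (hU : U.card = 3 * s) (hs : 1 ≤ s) :
    (j : ℤ) * ((3 * s).choose 2 : ℕ) + ∑ p ∈ U.powersetCard 2, ((dg F U p : ℤ) - 2) ≤
      3 * ((miss F U).card : ℤ) := by
  have h := codeg_sum hc h3 U
  rw [hU] at h
  rw [sum_sub_distrib, sum_const, card_powersetCard, hU, nsmul_eq_mul]
  have h' : (((∑ p ∈ U.powersetCard 2, dg F U p) + (3 * s - 2) * (3 * s).choose 2 : ℕ) : ℤ) ≤
      ((c * (3 * s).choose 2 + 3 * (miss F U).card : ℕ) : ℤ) := by exact_mod_cast h
  push_cast [Nat.cast_sub (by omega : 2 ≤ 3 * s)] at h'
  have hcj' : (c : ℤ) = 3 * s - j := by omega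
  rw [hcj'] at h'
  nlinarith [h']

end Helper54.Res
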