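import Pool.Agent.Helper28.Res.A0
import Pool.Agent.Helper54.Res.LA3

/-!
# Project RES (MP_d365ae_co), route A, leaf LA3 over the frame A0

The codegree condition per cell (`codeg_cell`), per own pair (`codeg_own`), and helper43's pair
bound (`pair_bound`).
-/

namespace Helper54.Res

open Finset Res12 RouteA

set_option linter.unusedSectionVars false

variable {V : Type} [Fintype V] [DecidableEq V]

section
variable {F P : Finset (Finset V)} {s j : ℕ} {x y : V}

theorem N_not_mem_left (h3 : ∀ e ∈ F, e.card = 3) {a b : V} : a ∉ N F a b := by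
  rw [mem_N]
  intro h
  have h1 := h3 _ h
  have h2 : ({a, b, a} : Finset V) = {a, b} := by
    ext v; simp only [mem_insert, mem_singleton]; tauto
  rw [h2] at h1
  have := card_le_two (a := a) (b := b)
  omega

theorem N_not_mem_right (h3 : ∀ e ∈ F, e.card = 3) {a b : V} : b ∉ N F a b := by
  rw [mem_N]
  intro h
  have h1 := h3 _ h
  have h2 : ({a, b, b} : Finset V) = {a, b} := by
    ext v; simp only [mem_insert, mem_singleton]; tauto
  rw [h2] at h1
  have := card_le_two (a := a) (b := b)
  omega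

/-- the codegree condition for a pair of points of `V(P)` -/
theorem codeg_pair (h : SetUp F s j P x y) {a b : V} (hab : a ≠ b) (ha : a ∈ VS P)
    (hb : b ∈ VS P) :
    (j : ℤ) + lam F P a b ≤
      (((VS P \ {a, b}).filter (fun z => ({a, b, z} : Finset V) ∉ F)).card : ℤ) := by
  classical
  have h1 : (N F a b ∩ VS P).card +
      ((VS P \ {a, b}).filter (fun z => ({a, b, z} : Finset V) ∉ F)).card + 2 = 3 * s := by
    have hsub : ({a, b} : Finset V) ⊆ VS P := by
      intro v hv
      simp only [mem_insert, mem_singleton] at hv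
      rcases hv with rfl | rfl <;> assumption
    have h2 := card_filter_add_card_filter_not (s := VS P \ {a, b})
      (fun z => ({a, b, z} : Finset V) ∈ F)
    have h3 : (VS P \ {a, b}).filter (fun z => ({a, b, z} : Finset V) ∈ F) = N F a b ∩ VS P := by
      ext z
      simp only [mem_filter, mem_sdiff, mem_insert, mem_singleton, not_or, mem_inter, mem_N]
      constructor
      · rintro ⟨⟨h4, -⟩, h5⟩; exact ⟨h5, h4⟩
      · rintro ⟨h5, h4⟩
        refine ⟨⟨h4, ?_, ?_⟩, h5⟩
        · rintro rfl; exact N_not_mem_left h.three (mem_N.2 h5)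
        · rintro rfl; exact N_not_mem_right h.three (mem_N.2 h5)
    rw [h3, card_sdiff_of_subset hsub, h.card_VS, card_pair hab] at h2
    have h6 : 2 ≤ 3 * s := by
      rw [← h.card_VS, ← card_pair hab]; exact card_le_card hsub
    omega
  have h2 : (N F a b).card = (N F a b ∩ VS P).card + dW F P a b := by
    unfold dW
    rw [← card_inter_add_card_sdiff]
  have h3 := h.cmax a b hab
  unfold lam
  omega

/-- **codeg_cell**: the codegree condition for the cell `a b`, `a ∈ e`, `b ∈ f`. -/
theorem codeg_cell (h : SetUp F s j P x y) {e f : Finset V} (he : e ∈ P) (hf : f ∈ P)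
    (hef : e ≠ f) {a b : V} (ha : a ∈ e) (hb : b ∈ f) :
    (j : ℤ) + lam F P a b ≤ ((m3 F P e f a b).card : ℤ) + ((m2 F e f a b).card : ℤ) := by
  classical
  have hab : a ≠ b := by
    rintro rfl
    exact Finset.disjoint_left.1 (h.mat e he f hf hef) ha hb
  refine (codeg_pair h hab (subset_VS he ha) (subset_VS hf hb)).trans ?_
  rw [← Nat.cast_add]
  apply Nat.cast_le.2
  refine le_trans (card_le_card ?_) (card_union_le _ _)
  intro z hz
  obtain ⟨hz1, hz2⟩ := mem_filter.1 hz
  obtain ⟨hz3, hz4⟩ := mem_sdiff.1 hz1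
  obtain ⟨g, hg, hzg⟩ := mem_VS.1 hz3
  rw [mem_union]
  by_cases hgef : g ∈ ({e, f} : Finset (Finset V))
  · right
    unfold m2
    rw [mem_filter, mem_sdiff, mem_union]
    refine ⟨⟨?_, hz4⟩, hz2⟩
    rw [mem_insert, mem_singleton] at hgef
    rcases hgef with rfl | rfl
    · exact Or.inl hzg
    · exact Or.inr hzg
  · left
    unfold m3
    rw [mem_filter]
    exact ⟨mem_VS.2 ⟨g, mem_sdiff.2 ⟨hg, hgef⟩, hzg⟩, hz2⟩

/-- **codeg_own**: the codegree condition for an own pair `a b` of the block `e`; the third point of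
the block is no missing triple. -/
theorem codeg_own (h : SetUp F s j P x y) {e : Finset V} (he : e ∈ P) {a b : V} (hab : a ≠ b)
    (ha : a ∈ e) (hb : b ∈ e) :
    (j : ℤ) + lam F P a b ≤
      (((VS P \ e).filter (fun z => ({a, b, z} : Finset V) ∉ F)).card : ℤ) := by
  classical
  refine (codeg_pair h hab (subset_VS he ha) (subset_VS he hb)).trans ?_
  apply Nat.cast_le.2
  apply card_le_card
  intro z hz
  obtain ⟨hz1, hz2⟩ := mem_filter.1 hz
  obtain ⟨hz3, hz4⟩ := mem_sdiff.1 hz1
  rw [mem_filter, mem_sdiff]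
  refine ⟨⟨hz3, ?_⟩, hz2⟩
  intro hze
  simp only [mem_insert, mem_singleton, not_or] at hz4
  have hsub : ({a, b, z} : Finset V) ⊆ e := by
    intro v hv
    simp only [mem_insert, mem_singleton] at hv
    rcases hv with rfl | rfl | rfl <;> assumption
  have hc : ({a, b, z} : Finset V).card = 3 :=
    card_eq_three.2 ⟨a, b, z, hab, Ne.symm hz4.1, Ne.symm hz4.2, rfl⟩
  apply hz2
  rw [Finset.eq_of_subset_of_card_le hsub (by rw [h.threeP e he, hc])]
  exact h.sub he

/-- every missing triple of a pair of blocks is seen by two cells -/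
theorem sum_m2 (h : SetUp F s j P x y) {e f : Finset V} (he : e ∈ P) (hf : f ∈ P) (hef : e ≠ f) :
    ∑ a ∈ e, ∑ b ∈ f, (m2 F e f a b).card = 2 * (mis F {e, f}).card := by
  classical
  have hd : Disjoint e f := h.mat e he f hf hef
  have h3e := h.threeP e he
  have h3f := h.threeP f hf
  -- members of `mis F {e, f}`
  have hmis : ∀ t, t ∈ mis F {e, f} ↔
      t ⊆ e ∪ f ∧ t.card = 3 ∧ t ∉ F ∧ (t ∩ e).Nonempty ∧ (t ∩ f).Nonempty := by
    intro t
    have hVS : VS ({e, f} : Finset (Finset V)) = e ∪ f := by simp [VS]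
    unfold mis
    rw [mem_filter, mem_powersetCard, hVS, and_assoc]
    refine and_congr_right fun h1 => and_congr_right fun h2 => and_congr_right fun h3 => ?_
    constructor
    · intro h4
      have he' : e ∈ bl {e, f} t := by rw [h4]; exact mem_insert_self _ _
      have hf' : f ∈ bl {e, f} t := by rw [h4]; exact mem_insert_of_mem (mem_singleton_self _)
      rw [mem_bl] at he' hf'
      rw [← Finset.not_disjoint_iff_nonempty_inter, ← Finset.not_disjoint_iff_nonempty_inter]
      exact ⟨fun h => he'.2 h.symm, fun h => hf'.2 h.symm⟩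
    · rintro ⟨h4, h5⟩
      rw [← Finset.not_disjoint_iff_nonempty_inter] at h4 h5
      ext g
      rw [mem_bl]
      constructor
      · rintro ⟨h6, -⟩; exact h6
      · intro h6
        refine ⟨h6, ?_⟩
        rw [mem_insert, mem_singleton] at h6
        rcases h6 with rfl | rfl
        · exact fun h => h4 h.symm
        · exact fun h => h5 h.symm
  -- double counting of (cell, missing triple through it)
  have h1 : ∀ a ∈ e, ∀ b ∈ f, (m2 F e f a b).card =
      ((mis F {e, f}).filter (fun t => a ∈ t ∧ b ∈ t)).card := by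
    intro a ha b hb
    have hab : a ≠ b := by rintro rfl; exact Finset.disjoint_left.1 hd ha hb
    refine card_bij (fun z _ => {a, b, z}) ?_ ?_ ?_
    · intro z hz
      unfold m2 at hz
      obtain ⟨hz1, hz2⟩ := mem_filter.1 hz
      obtain ⟨hz3, hz4⟩ := mem_sdiff.1 hz1
      simp only [mem_insert, mem_singleton, not_or] at hz4
      rw [mem_filter, hmis]
      refine ⟨⟨?_, ?_, hz2, ⟨a, ?_⟩, ⟨b, ?_⟩⟩, ?_, ?_⟩
      · intro v hv
        simp only [mem_insert, mem_singleton] at hv
        rcases hv with rfl | rfl | rfl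
        · exact mem_union_left _ ha
        · exact mem_union_right _ hb
        · exact hz3
      · exact card_eq_three.2 ⟨a, b, z, hab, Ne.symm hz4.1, Ne.symm hz4.2, rfl⟩
      · simp [ha]
      · simp [hb]
      · simp
      · simp
    · intro z hz z' hz' heq
      unfold m2 at hz
      obtain ⟨hz1, -⟩ := mem_filter.1 hz
      have hz4 := (mem_sdiff.1 hz1).2
      have : z ∈ ({a, b, z'} : Finset V) := by rw [← heq]; simp
      simp only [mem_insert, mem_singleton, not_or] at this hz4
      tauto
    · intro t ht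
      rw [mem_filter, hmis] at ht
      obtain ⟨⟨ht1, ht2, ht3, -, -⟩, hat, hbt⟩ := ht
      have hsub : ({a, b} : Finset V) ⊆ t := by
        intro v hv
        simp only [mem_insert, mem_singleton] at hv
        rcases hv with rfl | rfl <;> assumption
      have hcd : (t \ {a, b}).card = 1 := by
        rw [card_sdiff_of_subset hsub, ht2, card_pair hab]
      obtain ⟨z, hz⟩ := card_eq_one.1 hcd
      have hzm : z ∈ t \ {a, b} := by rw [hz]; exact mem_singleton_self z
      have hins : ({a, b, z} : Finset V) = t := by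
        have h4 : ({a, b, z} : Finset V) = {z} ∪ {a, b} := by
          ext v; simp only [mem_insert, mem_singleton, mem_union]; tauto
        rw [h4, ← hz, sdiff_union_of_subset hsub]
      refine ⟨z, ?_, hins⟩
      unfold m2
      rw [mem_filter, mem_sdiff, hins]
      exact ⟨⟨ht1 (mem_sdiff.1 hzm).1, (mem_sdiff.1 hzm).2⟩, ht3⟩
  have h2 : ∑ a ∈ e, ∑ b ∈ f, (m2 F e f a b).card =
      ∑ t ∈ mis F {e, f}, (t ∩ e).card * (t ∩ f).card := by
    rw [sum_congr rfl (fun a ha => sum_congr rfl (fun b hb => h1 a ha b hb))]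
    simp_rw [card_filter]
    have h3 : ∀ a ∈ e, ∑ b ∈ f, ∑ t ∈ mis F {e, f}, (if a ∈ t ∧ b ∈ t then 1 else 0) =
        ∑ t ∈ mis F {e, f}, (if a ∈ t then (t ∩ f).card else 0) := by
      intro a _
      rw [sum_comm]
      apply sum_congr rfl
      intro t _
      by_cases hat : a ∈ t
      · simp only [hat, true_and, if_true]
        rw [← card_filter]
        congr 1
        ext v; simp only [mem_filter, mem_inter]; tauto
      · simp [hat]
    rw [sum_congr rfl h3, sum_comm]
    apply sum_congr rfl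
    intro t _
    rw [← sum_filter, sum_const, smul_eq_mul]
    congr 2
    ext v; simp only [mem_filter, mem_inter]; tauto
  rw [h2, mul_comm 2, ← smul_eq_mul, ← sum_const]
  apply sum_congr rfl
  intro t ht
  obtain ⟨ht1, ht2, -, ht4, ht5⟩ := (hmis t).1 ht
  have h3 : (t ∩ e).card + (t ∩ f).card = 3 := by
    rw [← ht2, ← card_union_of_disjoint
      (hd.mono inter_subset_right inter_subset_right), ← inter_union_distrib_left,
      inter_eq_left.2 ht1]
  have h4 := card_pos.2 ht4
  have h5 := card_pos.2 ht5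
  have h6 : (t ∩ e).card = 1 ∧ (t ∩ f).card = 2 ∨ (t ∩ e).card = 2 ∧ (t ∩ f).card = 1 := by omega
  rcases h6 with ⟨h6, h7⟩ | ⟨h6, h7⟩ <;> rw [h6, h7]

/-- **pair_bound** (helper43): with `Phi = Σ λ - mu2 - (1/3) Σ m3`, multiplied by 3. -/
theorem pair_bound (h : SetUp F s j P x y) {e f : Finset V} (he : e ∈ P) (hf : f ∈ P)
    (hef : e ≠ f) :
    3 * ∑ a ∈ e, ∑ b ∈ f, lam F P a b - 3 * ((mis F {e, f}).card : ℤ) -
        ∑ a ∈ e, ∑ b ∈ f, ((m3 F P e f a b).card : ℤ) ≤
      2 * ∑ a ∈ e, ∑ b ∈ f, lam F P a b - 9 * (j : ℤ) - ((mis F {e, f}).card : ℤ) := by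
  have h1 : ∑ a ∈ e, ∑ b ∈ f, ((j : ℤ) + lam F P a b) ≤
      ∑ a ∈ e, ∑ b ∈ f, (((m3 F P e f a b).card : ℤ) + ((m2 F e f a b).card : ℤ)) :=
    sum_le_sum fun a ha => sum_le_sum fun b hb => codeg_cell h he hf hef ha hb
  have h2 : ∑ a ∈ e, ∑ b ∈ f, ((m2 F e f a b).card : ℤ) = 2 * ((mis F {e, f}).card : ℤ) := by
    exact_mod_cast sum_m2 h he hf hef
  simp only [sum_add_distrib, sum_const, h.threeP e he, h.threeP f hf, nsmul_eq_mul,
    Nat.cast_ofNat] at h1
  rw [h2] at h1
  linarith

end

end Helper54.Res
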