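import Pool.Agent.Helper54.Res.LA3

/-!
# Project RES (MP_d365ae_co), route A: the exact decomposition over `U = V + x + y` (helper17)

`3 (|F| - C(3s+2,3)) = Σ_p (3 d(p) - m(p)) + 3 Σ_v |G_v|`, the first sum over the pairs `p` of a set
`U` with `3 s + 2` points which meets every edge, `d(p) = dg F U p`, `m(p) = |missAt F U p|`.
-/

namespace Helper54.Res

open Finset Res12 Helper28.Res

set_option linter.unusedSectionVars false

variable {V : Type} [Fintype V] [DecidableEq V]

theorem sum_three_dg {F : Finset (Finset V)} (h3 : ∀ e ∈ F, e.card = 3) (U : Finset V) :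
    ∑ q ∈ U.powersetCard 3, dg F U q + (miss F U).card = U.card.choose 3 := by
  classical
  have h1 : ∑ q ∈ U.powersetCard 3, dg F U q = ((U.powersetCard 3).filter (fun q => q ∈ F)).card := by
    rw [card_filter]
    apply sum_congr rfl
    intro q hq
    obtain ⟨hqU, hq3⟩ := mem_powersetCard.1 hq
    split_ifs with h
    · apply le_antisymm (dg_three h3 hq3)
      have : dg F U q ≠ 0 := dg_pos h (inter_eq_left.2 hqU)
      omega
    · by_contra hne
      obtain ⟨f, hf, hfU⟩ := exists_of_dg hne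
      apply h
      have hqf : q ⊆ f := by rw [← hfU]; exact inter_subset_left
      rw [Finset.eq_of_subset_of_card_le hqf (by rw [h3 f hf, hq3])]
      exact hf
  have h2 := card_filter_add_card_filter_not (s := U.powersetCard 3) (fun q => q ∈ F)
  rw [card_powersetCard] at h2
  rw [h1]
  exact h2

/-- **EXACT**, natural number form, any `U` which meets every edge. -/
theorem exact_nat {F : Finset (Finset V)} (h3 : ∀ e ∈ F, e.card = 3) {U : Finset V}
    (hcov : ∀ e ∈ F, (e ∩ U).Nonempty) :
    F.card + (miss F U).card = U.card.choose 3 + ∑ p ∈ U.powersetCard 2, dg F U p +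
      ∑ p ∈ U.powersetCard 1, dg F U p := by
  have hsplit : F.card = (F.filter (fun e => (e ∩ U).card = 3)).card +
      ((F.filter (fun e => (e ∩ U).card = 2)).card +
        (F.filter (fun e => (e ∩ U).card = 1)).card) := by
    have h1 := Finset.card_filter_add_card_filter_not (s := F) (fun e => (e ∩ U).card = 3)
    have h2 := Finset.card_filter_add_card_filter_not
      (s := F.filter (fun e => ¬ (e ∩ U).card = 3)) (fun e => (e ∩ U).card = 2)
    rw [filter_filter, filter_filter] at h2
    have e1 : F.filter (fun e => ¬ (e ∩ U).card = 3 ∧ (e ∩ U).card = 2) =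
        F.filter (fun e => (e ∩ U).card = 2) := by
      apply filter_congr
      intro e _
      constructor
      · rintro ⟨-, h⟩; exact h
      · intro h; exact ⟨by omega, h⟩
    have e2 : F.filter (fun e => ¬ (e ∩ U).card = 3 ∧ ¬ (e ∩ U).card = 2) =
        F.filter (fun e => (e ∩ U).card = 1) := by
      apply filter_congr
      intro e he
      have h4 : 1 ≤ (e ∩ U).card := card_pos.2 (hcov e he)
      have h5 : (e ∩ U).card ≤ 3 := (card_le_card inter_subset_left).trans (h3 e he).le
      constructor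
      · rintro ⟨h6, h7⟩; omega
      · intro h; omega
    rw [e1, e2] at h2
    omega
  rw [fiber, fiber, fiber] at hsplit
  have h := sum_three_dg h3 U
  omega

/-- **EXACT over `U` with `3 s + 2` points.** -/
theorem exact_U {F : Finset (Finset V)} {s : ℕ} (h3 : ∀ e ∈ F, e.card = 3) {U : Finset V}
    (hU : U.card = 3 * s + 2) (hcov : ∀ e ∈ F, (e ∩ U).Nonempty) :
    3 * ((F.card : ℤ) - ((3 * s + 2).choose 3 : ℕ)) =
      ∑ p ∈ U.powersetCard 2, (3 * (dg F U p : ℤ) - ((missAt F U p).card : ℤ)) +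
        3 * ∑ p ∈ U.powersetCard 1, (dg F U p : ℤ) := by
  have h := exact_nat h3 hcov
  rw [hU] at h
  have h' : ((F.card + (miss F U).card : ℕ) : ℤ) = (((3 * s + 2).choose 3 +
      ∑ p ∈ U.powersetCard 2, dg F U p + ∑ p ∈ U.powersetCard 1, dg F U p : ℕ) : ℤ) := by
    exact_mod_cast h
  have h2 : ((∑ p ∈ U.powersetCard 2, (missAt F U p).card : ℕ) : ℤ) =
      ((3 * (miss F U).card : ℕ) : ℤ) := by exact_mod_cast sum_missAt F U
  rw [sum_sub_distrib, ← mul_sum]
  push_cast at h' h2
  rw [h2]
  linarith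

/-- The pairs bound over `U`: `d(p) + j ≤ m(p)` when all codegrees are at most `3 s - j`. -/
theorem m_ge {F : Finset (Finset V)} {s j c : ℕ} (hcj : c + j = 3 * s)
    (hc : ∀ a b, (N F a b).card ≤ c) (h3 : ∀ e ∈ F, e.card = 3) {U p : Finset V}
    (hU : U.card = 3 * s + 2) (hp : p ∈ U.powersetCard 2) :
    dg F U p + j ≤ (missAt F U p).card := by
  have := pair_ineq hc h3 hp
  omega

/-- The set `V(P) + x + y`. -/
def UU (P : Finset (Finset V)) (x y : V) : Finset V := insert x (insert y (VS P))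

theorem card_UU {F P : Finset (Finset V)} {s : ℕ} (h : Hyp F s) (hP : P ⊆ F) (hm : IsMatching P)
    (hc : P.card = s) {x y : V} (hxy : x ≠ y) (hx : x ∉ VS P) (hy : y ∉ VS P) :
    (UU P x y).card = 3 * s + 2 := by
  unfold UU
  rw [card_insert_of_notMem, card_insert_of_notMem hy,
    card_VS hm (fun e he => h.three e (hP he)), hc]
  rw [mem_insert, not_or]
  exact ⟨hxy, hx⟩

theorem cov_UU {F P : Finset (Finset V)} {s : ℕ} (h : Hyp F s) (hP : P ⊆ F) (hm : IsMatching P)
    (hc : P.card = s) (x y : V) : ∀ e ∈ F, (e ∩ UU P x y).Nonempty := by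
  intro e he
  have h1 := h.meets hP hm hc he
  rw [Finset.not_disjoint_iff] at h1
  obtain ⟨v, hv1, hv2⟩ := h1
  exact ⟨v, mem_inter.2 ⟨hv1, mem_insert_of_mem (mem_insert_of_mem hv2)⟩⟩

/-- an edge whose trace on `U` avoids `V(P)` does not exist -/
theorem dg_eq_zero {F P : Finset (Finset V)} {s : ℕ} (h : Hyp F s) (hP : P ⊆ F)
    (hm : IsMatching P) (hc : P.card = s) {x y : V} {p : Finset V} (hp : Disjoint p (VS P)) :
    dg F (UU P x y) p = 0 := by
  unfold dg
  rw [card_eq_zero, filter_eq_empty_iff]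
  intro e he hpe
  apply h.meets hP hm hc he
  rw [Finset.disjoint_left]
  intro v hv hvP
  have : v ∈ p := by
    rw [← hpe]
    exact mem_inter.2 ⟨hv, mem_insert_of_mem (mem_insert_of_mem hvP)⟩
  exact (Finset.disjoint_left.1 hp this) hvP

/-- The point part only lives on `V(P)`. -/
theorem sum_points {F P : Finset (Finset V)} {s : ℕ} (h : Hyp F s) (hP : P ⊆ F)
    (hm : IsMatching P) (hc : P.card = s) (x y : V) :
    ∑ p ∈ (UU P x y).powersetCard 1, dg F (UU P x y) p =
      ∑ v ∈ VS P, dg F (UU P x y) {v} := by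
  classical
  rw [Finset.powersetCard_one, Finset.sum_map]
  symm
  apply Finset.sum_subset
  · intro v hv
    exact mem_insert_of_mem (mem_insert_of_mem hv)
  · intro v hv hv'
    apply dg_eq_zero h hP hm hc
    rw [Finset.disjoint_singleton_left]
    exact hv'

/-- **EXACT for `U = V(P) + x + y`** (helper17): `3 (|F| - N(s)) = Σ_p (3 d(p) - m(p)) + 3 Σ_v |G_v|`. -/
theorem exact_UU {F P : Finset (Finset V)} {s : ℕ} (h : Hyp F s) (hP : P ⊆ F) (hm : IsMatching P)
    (hc : P.card = s) {x y : V} (hxy : x ≠ y) (hx : x ∉ VS P) (hy : y ∉ VS P) :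
    3 * ((F.card : ℤ) - ((3 * s + 2).choose 3 : ℕ)) =
      ∑ p ∈ (UU P x y).powersetCard 2,
        (3 * (dg F (UU P x y) p : ℤ) - ((missAt F (UU P x y) p).card : ℤ)) +
        3 * ∑ v ∈ VS P, (dg F (UU P x y) {v} : ℤ) := by
  rw [exact_U h.three (card_UU h hP hm hc hxy hx hy) (cov_UU h hP hm hc x y)]
  have h1 := sum_points h hP hm hc x y
  have h2 : (∑ p ∈ (UU P x y).powersetCard 1, (dg F (UU P x y) p : ℤ)) =
      ∑ v ∈ VS P, (dg F (UU P x y) {v} : ℤ) := by exact_mod_cast h1
  rw [h2]

end Helper54.Res
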