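import Pool.Agent.Helper54.Res.Cell

/-!
# Project RES (MP_d365ae_co), route A: `sum_m3` and the conversion of sums over pairs of blocks
-/

namespace Helper54.Res

open Finset Res12 RouteA

set_option linter.unusedSectionVars false

/-- sums over pairs of blocks as ordered double sums -/
theorem sum_pairs_conv {α M : Type} [DecidableEq α] [AddCommMonoid M] (P : Finset α)
    (X : Finset α → M) :
    2 • ∑ S ∈ P.powersetCard 2, X S = ∑ e ∈ P, ∑ f ∈ P.erase e, X {e, f} := by
  classical
  have h1 : 2 • ∑ S ∈ P.powersetCard 2, X S =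
      ∑ S ∈ P.powersetCard 2, ∑ e ∈ S, X S := by
    rw [← sum_nsmul]
    apply sum_congr rfl
    intro S hS
    rw [sum_const, (mem_powersetCard.1 hS).2]
  rw [h1]
  have h2 : ∀ e ∈ P, ∑ f ∈ P.erase e, X {e, f} =
      ∑ S ∈ (P.powersetCard 2).filter (fun S => e ∈ S), X S := by
    intro e he
    refine sum_bij (fun f _ => {e, f}) ?_ ?_ ?_ ?_
    · intro f hf
      obtain ⟨hfe, hfP⟩ := mem_erase.1 hf
      rw [mem_filter, mem_powersetCard]
      refine ⟨⟨?_, card_pair (Ne.symm hfe)⟩, mem_insert_self _ _⟩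
      intro g hg
      simp only [mem_insert, mem_singleton] at hg
      rcases hg with rfl | rfl <;> assumption
    · intro f hf f' hf' h
      obtain ⟨hfe, -⟩ := mem_erase.1 hf
      have : f ∈ ({e, f'} : Finset α) := by rw [← h]; simp
      simp only [mem_insert, mem_singleton] at this
      exact this.resolve_left hfe
    · intro S hS
      obtain ⟨hS1, heS⟩ := mem_filter.1 hS
      obtain ⟨hS2, hS3⟩ := mem_powersetCard.1 hS1
      have h4 : (S.erase e).card = 1 := by rw [card_erase_of_mem heS, hS3]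
      obtain ⟨f, hf⟩ := card_eq_one.1 h4
      have hfm : f ∈ S.erase e := by rw [hf]; exact mem_singleton_self f
      refine ⟨f, ?_, ?_⟩
      · rw [mem_erase]
        exact ⟨(mem_erase.1 hfm).1, hS2 (mem_erase.1 hfm).2⟩
      · rw [← insert_erase heS, hf]
    · intro f _; rfl
  rw [sum_congr rfl h2]
  simp_rw [sum_filter]
  rw [sum_comm]
  apply sum_congr rfl
  intro S hS
  rw [← sum_filter]
  apply sum_congr _ (fun _ _ => rfl)
  ext e
  rw [mem_filter]
  constructor
  · intro he; exact ⟨(mem_powersetCard.1 hS).1 he, he⟩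
  · rintro ⟨-, he⟩; exact he

variable {V : Type} [Fintype V] [DecidableEq V]

section
variable {F P : Finset (Finset V)} {s j : ℕ} {x y : V}

/-- membership in `mis F S` seen from the whole matching -/
theorem mem_mis_iff (hm : IsMatching P) {S : Finset (Finset V)} (hS : S ⊆ P) {t : Finset V} :
    t ∈ mis F S ↔ t ⊆ VS P ∧ t.card = 3 ∧ t ∉ F ∧ bl P t = S := by
  unfold mis
  rw [mem_filter, mem_powersetCard, and_assoc]
  constructor
  · rintro ⟨h1, h2, h3, h4⟩
    refine ⟨fun v hv => ?_, h2, h3, ?_⟩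
    · obtain ⟨g, hg, hvg⟩ := mem_VS.1 (h1 hv)
      exact mem_VS.2 ⟨g, hS hg, hvg⟩
    · ext g
      rw [mem_bl]
      constructor
      · rintro ⟨hgP, hg⟩
        rw [Finset.not_disjoint_iff] at hg
        obtain ⟨v, hvg, hvt⟩ := hg
        obtain ⟨g', hg', hvg'⟩ := mem_VS.1 (h1 hvt)
        by_contra hgS
        have hne : g ≠ g' := fun h => hgS (h ▸ hg')
        exact Finset.disjoint_left.1 (hm g hgP g' (hS hg') hne) hvg hvg'
      · intro hg
        refine ⟨hS hg, ?_⟩
        rw [← h4, mem_bl] at hg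
        exact hg.2
  · rintro ⟨h1, h2, h3, h4⟩
    refine ⟨fun v hv => ?_, h2, h3, ?_⟩
    · obtain ⟨g, hg, hvg⟩ := mem_VS.1 (h1 hv)
      refine mem_VS.2 ⟨g, ?_, hvg⟩
      rw [← h4, mem_bl]
      exact ⟨hg, Finset.not_disjoint_iff.2 ⟨v, hvg, hv⟩⟩
    · ext g
      rw [mem_bl]
      constructor
      · rintro ⟨hg, -⟩; exact hg
      · intro hg
        refine ⟨hg, ?_⟩
        rw [← h4, mem_bl] at hg
        exact hg.2

/-- all missing triples with three blocks -/
def mis3 (F P : Finset (Finset V)) : Finset (Finset V) :=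
  ((VS P).powersetCard 3).filter (fun t => t ∉ F ∧ (bl P t).card = 3)

theorem card_mis3 (hm : IsMatching P) :
    (mis3 F P).card = ∑ S ∈ P.powersetCard 3, (mis F S).card := by
  classical
  rw [Finset.card_eq_sum_card_fiberwise (f := bl P) (t := P.powersetCard 3)]
  · apply sum_congr rfl
    intro S hS
    obtain ⟨hS1, hS2⟩ := mem_powersetCard.1 hS
    congr 1
    ext t
    rw [mem_filter, mem_mis_iff hm hS1]
    unfold mis3
    rw [mem_filter, mem_powersetCard]
    constructor
    · rintro ⟨⟨⟨h1, h2⟩, h3, -⟩, h4⟩; exact ⟨h1, h2, h3, h4⟩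
    · rintro ⟨h1, h2, h3, h4⟩; exact ⟨⟨⟨h1, h2⟩, h3, by rw [h4, hS2]⟩, h4⟩
  · intro t ht
    have ht' : t ∈ mis3 F P := ht
    unfold mis3 at ht'
    rw [mem_filter] at ht'
    exact mem_powersetCard.2 ⟨bl_subset P t, ht'.2.2⟩

/-- the trace of a transversal triple on its blocks is one point -/
theorem inter_card_of_bl {t : Finset V} (hm : IsMatching P) (ht : t ⊆ VS P) (h3 : t.card = 3)
    (hb : (bl P t).card = 3) {e : Finset V} (he : e ∈ P) :
    (t ∩ e).card = if e ∈ bl P t then 1 else 0 := by
  classical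
  have hsum : ∑ g ∈ bl P t, (t ∩ g).card = 3 := by
    rw [← card_biUnion]
    · rw [← h3]
      congr 1
      ext v
      simp only [mem_biUnion, mem_inter]
      constructor
      · rintro ⟨g, -, hv, -⟩; exact hv
      · intro hv
        obtain ⟨g, hg, hvg⟩ := mem_VS.1 (ht hv)
        exact ⟨g, mem_bl.2 ⟨hg, Finset.not_disjoint_iff.2 ⟨v, hvg, hv⟩⟩, hv, hvg⟩
    · intro g hg g' hg' hne
      exact (hm g (mem_bl.1 hg).1 g' (mem_bl.1 hg').1 hne).mono inter_subset_right
        inter_subset_right
  have hpos : ∀ g ∈ bl P t, 1 ≤ (t ∩ g).card := by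
    intro g hg
    rw [Nat.one_le_iff_ne_zero, ← Nat.pos_iff_ne_zero, card_pos,
      ← Finset.not_disjoint_iff_nonempty_inter]
    exact fun h => (mem_bl.1 hg).2 h.symm
  split_ifs with h
  · by_contra hne
    have h1 : 1 < (t ∩ e).card := lt_of_le_of_ne (hpos e h) (Ne.symm hne)
    have h2 : ∑ g ∈ bl P t, 1 < ∑ g ∈ bl P t, (t ∩ g).card :=
      sum_lt_sum hpos ⟨e, h, h1⟩
    rw [hsum, sum_const, hb, smul_eq_mul] at h2
    omega
  · rw [card_eq_zero, ← Finset.disjoint_iff_inter_eq_empty]
    by_contra h1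
    exact h (mem_bl.2 ⟨he, fun h2 => h1 h2.symm⟩)

/-- **sum_m3**: every missing transversal triple is seen from six ordered pairs of blocks. -/
theorem sum_m3 (h : SetUp F s j P x y) :
    6 * ∑ S ∈ P.powersetCard 3, (mis F S).card =
      ∑ e ∈ P, ∑ f ∈ P.erase e, ∑ a ∈ e, ∑ b ∈ f, (m3 F P e f a b).card := by
  classical
  have hm := h.mat
  rw [← card_mis3 hm]
  have h1 : ∀ e ∈ P, ∀ f ∈ P.erase e, ∀ a ∈ e, ∀ b ∈ f, (m3 F P e f a b).card =
      ∑ t ∈ mis3 F P, if a ∈ t ∧ b ∈ t then 1 else 0 := by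
    intro e he f hf a ha b hb
    obtain ⟨hfe, hf⟩ := mem_erase.1 hf
    have hd : Disjoint e f := hm e he f hf (Ne.symm hfe)
    have hab : a ≠ b := by rintro rfl; exact Finset.disjoint_left.1 hd ha hb
    rw [← card_filter]
    refine card_bij (fun z _ => {a, b, z}) ?_ ?_ ?_
    · intro z hz
      unfold m3 at hz
      obtain ⟨hz1, hz2⟩ := mem_filter.1 hz
      obtain ⟨g, hg, hzg⟩ := mem_VS.1 hz1
      obtain ⟨hgP, hgef⟩ := mem_sdiff.1 hg
      simp only [mem_insert, mem_singleton, not_or] at hgef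
      have hza : z ≠ a := by
        rintro rfl; exact Finset.disjoint_left.1 (hm g hgP e he hgef.1) hzg ha
      have hzb : z ≠ b := by
        rintro rfl; exact Finset.disjoint_left.1 (hm g hgP f hf hgef.2) hzg hb
      have hbl : bl P {a, b, z} = {e, f, g} := by
        ext k
        rw [mem_bl]
        simp only [mem_insert, mem_singleton]
        constructor
        · rintro ⟨hk, hk'⟩
          rw [Finset.not_disjoint_iff] at hk'
          obtain ⟨v, hvk, hv⟩ := hk'
          simp only [mem_insert, mem_singleton] at hv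
          by_contra hcon
          push Not at hcon
          rcases hv with rfl | rfl | rfl
          · exact Finset.disjoint_left.1 (hm k hk e he hcon.1) hvk ha
          · exact Finset.disjoint_left.1 (hm k hk f hf hcon.2.1) hvk hb
          · exact Finset.disjoint_left.1 (hm k hk g hgP hcon.2.2) hvk hzg
        · rintro (rfl | rfl | rfl)
          · exact ⟨he, Finset.not_disjoint_iff.2 ⟨a, ha, by simp⟩⟩
          · exact ⟨hf, Finset.not_disjoint_iff.2 ⟨b, hb, by simp⟩⟩
          · exact ⟨hgP, Finset.not_disjoint_iff.2 ⟨z, hzg, by simp⟩⟩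
      unfold mis3
      rw [mem_filter, mem_filter, mem_powersetCard]
      refine ⟨⟨⟨?_, ?_⟩, hz2, ?_⟩, by simp, by simp⟩
      · intro v hv
        simp only [mem_insert, mem_singleton] at hv
        rcases hv with rfl | rfl | rfl
        · exact subset_VS he ha
        · exact subset_VS hf hb
        · exact subset_VS hgP hzg
      · exact card_eq_three.2 ⟨a, b, z, hab, Ne.symm hza, Ne.symm hzb, rfl⟩
      · rw [hbl]
        exact card_eq_three.2 ⟨e, f, g, Ne.symm hfe, Ne.symm hgef.1, Ne.symm hgef.2, rfl⟩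
    · intro z hz z' hz' heq
      unfold m3 at hz
      obtain ⟨hz1, -⟩ := mem_filter.1 hz
      obtain ⟨g, hg, hzg⟩ := mem_VS.1 hz1
      obtain ⟨hgP, hgef⟩ := mem_sdiff.1 hg
      simp only [mem_insert, mem_singleton, not_or] at hgef
      have : z ∈ ({a, b, z'} : Finset V) := by rw [← heq]; simp
      simp only [mem_insert, mem_singleton] at this
      rcases this with rfl | rfl | h5
      · exact absurd ha (Finset.disjoint_left.1 (hm g hgP e he hgef.1) hzg)
      · exact absurd hb (Finset.disjoint_left.1 (hm g hgP f hf hgef.2) hzg)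
      · exact h5
    · intro t ht
      rw [mem_filter] at ht
      obtain ⟨ht1, hat, hbt⟩ := ht
      unfold mis3 at ht1
      rw [mem_filter, mem_powersetCard] at ht1
      obtain ⟨⟨ht2, ht3⟩, ht4, ht5⟩ := ht1
      have hsub : ({a, b} : Finset V) ⊆ t := by
        intro v hv
        simp only [mem_insert, mem_singleton] at hv
        rcases hv with rfl | rfl <;> assumption
      have hcd : (t \ {a, b}).card = 1 := by
        rw [card_sdiff_of_subset hsub, ht3, card_pair hab]
      obtain ⟨z, hz⟩ := card_eq_one.1 hcd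
      have hzm : z ∈ t \ {a, b} := by rw [hz]; exact mem_singleton_self z
      have hins : ({a, b, z} : Finset V) = t := by
        have h4 : ({a, b, z} : Finset V) = {z} ∪ {a, b} := by
          ext v; simp only [mem_insert, mem_singleton, mem_union]; tauto
        rw [h4, ← hz, sdiff_union_of_subset hsub]
      refine ⟨z, ?_, hins⟩
      obtain ⟨hzt, hzab⟩ := mem_sdiff.1 hzm
      simp only [mem_insert, mem_singleton, not_or] at hzab
      obtain ⟨g, hg, hzg⟩ := mem_VS.1 (ht2 hzt)
      unfold m3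
      rw [mem_filter, hins]
      refine ⟨mem_VS.2 ⟨g, ?_, hzg⟩, ht4⟩
      rw [mem_sdiff]
      refine ⟨hg, ?_⟩
      simp only [mem_insert, mem_singleton, not_or]
      have htg : ∀ k ∈ P, (t ∩ k).card ≤ 1 := by
        intro k hk
        rw [inter_card_of_bl hm ht2 ht3 ht5 hk]
        split_ifs <;> omega
      constructor
      · rintro rfl
        have h6 := htg g hg
        have h7 : ({a, z} : Finset V) ⊆ t ∩ g := by
          intro v hv
          simp only [mem_insert, mem_singleton] at hv
          rcases hv with rfl | rfl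
          · exact mem_inter.2 ⟨hat, ha⟩
          · exact mem_inter.2 ⟨hzt, hzg⟩
        have h8 := card_le_card h7
        rw [card_pair (Ne.symm hzab.1)] at h8
        omega
      · rintro rfl
        have h6 := htg g hg
        have h7 : ({b, z} : Finset V) ⊆ t ∩ g := by
          intro v hv
          simp only [mem_insert, mem_singleton] at hv
          rcases hv with rfl | rfl
          · exact mem_inter.2 ⟨hbt, hb⟩
          · exact mem_inter.2 ⟨hzt, hzg⟩
        have h8 := card_le_card h7
        rw [card_pair (Ne.symm hzab.2)] at h8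
        omega
  -- the right side as a sum over the missing triples
  have h2 : ∑ e ∈ P, ∑ f ∈ P.erase e, ∑ a ∈ e, ∑ b ∈ f, (m3 F P e f a b).card =
      ∑ t ∈ mis3 F P, ∑ e ∈ P, ∑ f ∈ P.erase e, (t ∩ e).card * (t ∩ f).card := by
    have h3 : ∀ e ∈ P, ∀ f ∈ P.erase e, ∑ a ∈ e, ∑ b ∈ f, (m3 F P e f a b).card =
        ∑ t ∈ mis3 F P, (t ∩ e).card * (t ∩ f).card := by
      intro e he f hf
      rw [sum_congr rfl (fun a ha => sum_congr rfl (fun b hb => h1 e he f hf a ha b hb))]
      have h4 : ∀ a ∈ e, ∑ b ∈ f, ∑ t ∈ mis3 F P, (if a ∈ t ∧ b ∈ t then 1 else 0) =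
          ∑ t ∈ mis3 F P, (if a ∈ t then (t ∩ f).card else 0) := by
        intro a _
        rw [sum_comm]
        apply sum_congr rfl
        intro t _
        by_cases hat : a ∈ t
        · simp only [hat, true_and, if_true]
          rw [← card_filter]
          congr 1
          ext v; simp only [mem_filter, mem_inter]; tauto
        · simp [hat]
      rw [sum_congr rfl h4, sum_comm]
      apply sum_congr rfl
      intro t _
      rw [← sum_filter, sum_const, smul_eq_mul]
      congr 2
      ext v; simp only [mem_filter, mem_inter]; tauto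
    rw [sum_congr rfl (fun e he => sum_congr rfl (fun f hf => h3 e he f hf))]
    have h5 : ∀ e ∈ P, ∑ f ∈ P.erase e, ∑ t ∈ mis3 F P, (t ∩ e).card * (t ∩ f).card =
        ∑ t ∈ mis3 F P, ∑ f ∈ P.erase e, (t ∩ e).card * (t ∩ f).card := fun e _ => sum_comm
    rw [sum_congr rfl h5, sum_comm]
  rw [h2, mul_comm, ← smul_eq_mul, ← sum_const]
  apply sum_congr rfl
  intro t ht
  unfold mis3 at ht
  rw [mem_filter, mem_powersetCard] at ht
  obtain ⟨⟨ht2, ht3⟩, ht4, ht5⟩ := ht
  have h6 : ∀ e ∈ P, (t ∩ e).card = if e ∈ bl P t then 1 else 0 :=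
    fun e he => inter_card_of_bl hm ht2 ht3 ht5 he
  have hsub := bl_subset P t
  have h7 : ∀ e ∈ P, ∑ f ∈ P.erase e, (t ∩ e).card * (t ∩ f).card =
      if e ∈ bl P t then 2 else 0 := by
    intro e he
    rw [← mul_sum, h6 e he]
    split_ifs with he'
    · rw [one_mul]
      have h8 : ∑ f ∈ P.erase e, (t ∩ f).card = ∑ f ∈ P.erase e, if f ∈ bl P t then 1 else 0 :=
        sum_congr rfl fun f hf => h6 f (mem_erase.1 hf).2
      rw [h8, ← card_filter]
      have h9 : (P.erase e).filter (fun f => f ∈ bl P t) = (bl P t).erase e := by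
        ext f
        simp only [mem_filter, mem_erase]
        constructor
        · rintro ⟨⟨h10, -⟩, h11⟩; exact ⟨h10, h11⟩
        · rintro ⟨h10, h11⟩; exact ⟨⟨h10, hsub h11⟩, h11⟩
      rw [h9, card_erase_of_mem he', ht5]
    · rw [zero_mul]
  rw [sum_congr rfl h7, ← sum_filter, sum_const, smul_eq_mul]
  have h10 : P.filter (fun e => e ∈ bl P t) = bl P t := by
    ext f
    rw [mem_filter]
    exact ⟨fun h => h.2, fun h => ⟨hsub h, h⟩⟩
  rw [h10, ht5]

end

end Helper54.Res
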