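import Pool.Agent.Helper9.Res.PM
import Pool.Agent.Helper54.Res.ExactU
import Pool.Agent.Helper54.Res.SumM3

/-!
# Project RES (MP_d365ae_co), route A: kills per perfect matching, with inner triples and `x`, `y`

`{ua, vb, tc}` is a perfect matching of the cells of the blocks `e = {u,v,t}`, `f = {a,b,c}`.
`mm` of a cell = number of missing triples of `VS P` through the cell (`m3 + m2`).

* one label at `u a`: `3 s + ep u + ep a ≤ mm (v b) + mm (t c) + j + 2` (`pair_mm`), and over
  `U = VS P + x + y`: `3 s + ep u + ep a ≤ missAt (v b) + missAt (t c) + j` (`pair_U`);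
* labels with different representatives at `u a`, `v b`: `3 s ≤ mm (t c) + j` (`zero_mm`),
  `3 s + 2 ≤ missAt (t c) + j` (`zero_U`).
-/

namespace Helper54.Res

open Finset Res12 RouteA Helper1.Res Helper9.Res Helper28.Res

set_option linter.unusedSectionVars false

variable {V : Type} [Fintype V] [DecidableEq V]
variable {F P : Finset (Finset V)} {s j : ℕ} {x y : V}

/-- number of missing triples of `VS P` through the cell `a b` -/
def mm (F P : Finset (Finset V)) (e f : Finset V) (a b : V) : ℕ :=
  (m3 F P e f a b).card + (m2 F e f a b).card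

theorem ms_eq_one {p q r : V} (h : ({p, q, r} : Finset V) ∉ F) : ms F p q r = 1 := by
  unfold ms; rw [if_neg h]

theorem ms_swap23 (p q r : V) : ms F p q r = ms F p r q := by
  unfold ms
  have : ({p, q, r} : Finset V) = {p, r, q} := by
    ext z; simp only [mem_insert, mem_singleton]; tauto
  rw [this]

theorem ms_rot (p q r : V) : ms F p q r = ms F q r p := by
  unfold ms
  have : ({p, q, r} : Finset V) = {q, r, p} := by
    ext z; simp only [mem_insert, mem_singleton]; tauto
  rw [this]

/-- the inner missing triples through a cell, the four third points -/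
theorem card_m2_eq {e f : Finset V} {u v t a b c : V} (h : SetUp F s j P x y)
    (p : Pm P e f u v t a b c) :
    (m2 F e f t c).card = ms F t c u + ms F t c v + ms F t c a + ms F t c b := by
  classical
  have e1 := block_eq h p.he p.hu p.hv p.ht p.huv p.hut p.hvt
  have e2 := block_eq h p.hf p.ha p.hb p.hc p.hab p.hac p.hbc
  have nef : ∀ {i k : V}, i ∈ e → k ∈ f → i ≠ k :=
    fun hi hj => (toMM h).neq p.he p.hf p.hef hi hj
  unfold m2
  have hset : (e ∪ f) \ {t, c} = {u, v, a, b} := by
    rw [← e1, ← e2]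
    ext z
    simp only [mem_sdiff, mem_union, mem_insert, mem_singleton, not_or]
    constructor
    · rintro ⟨(h | h | h) | (h | h | h), h1, h2⟩ <;> tauto
    · rintro (rfl | rfl | rfl | rfl)
      · exact ⟨Or.inl (Or.inl rfl), p.hut, nef p.hu p.hc⟩
      · exact ⟨Or.inl (Or.inr (Or.inl rfl)), p.hvt, nef p.hv p.hc⟩
      · exact ⟨Or.inr (Or.inl rfl), (nef p.ht p.ha).symm, p.hac⟩
      · exact ⟨Or.inr (Or.inr (Or.inl rfl)), (nef p.ht p.hb).symm, p.hbc⟩
  rw [hset, card_filter, sum_insert, sum_insert, sum_insert, sum_singleton]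
  · unfold ms
    split_ifs <;> simp_all
  · rw [mem_singleton]; exact p.hab
  · simp only [mem_insert, mem_singleton, not_or]
    exact ⟨nef p.hv p.ha, nef p.hv p.hb⟩
  · simp only [mem_insert, mem_singleton, not_or]
    exact ⟨p.huv, nef p.hu p.ha, nef p.hu p.hb⟩

section
variable (h : SetUp F s j P x y)
include h

/-- one label at `u a`: the inner triple `{v, t, b}` is missing if `c ∈ E` -/
theorem inner_kill {e f : Finset V} {u v t a b c : V} (p : Pm P e f u v t a b c)
    (hl : (lb F P x y u a).Nonempty) : 1 ≤ ms F v b t + ep F x y c := by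
  obtain ⟨w, hw⟩ := hl
  obtain ⟨w1, w2, w3, w4⟩ := mem_lb.1 hw
  have e1 := block_eq h p.he p.hu p.hv p.ht p.huv p.hut p.hvt
  have e2 := block_eq h p.hf p.ha p.hb p.hc p.hab p.hac p.hbc
  by_contra hcon
  push Not at hcon
  have k1 : ms F v b t = 0 := by omega
  have k2 : ep F x y c = 0 := by omega
  have k3 : ({v, t, b} : Finset V) ∈ F := by
    rw [ms_swap23] at k1
    exact mem_of_ms k1
  have := label_inner (toMM h) h.avx h.avy (u := u) (v := v) (t := t) (a := a) (b := b) (c := c)
    (by rw [e1]; exact p.he) (by rw [e2]; exact p.hf) (by rw [e1, e2]; exact p.hef) w2 w3 w4 w1 k3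
  unfold ep at k2
  rw [if_neg this] at k2
  omega

/-- **inner kills of one label**: inside `m2` of the two other cells of the matching -/
theorem inner_pair {e f : Finset V} {u v t a b c : V} (p : Pm P e f u v t a b c)
    (hl : (lb F P x y u a).Nonempty) :
    4 ≤ (m2 F e f v b).card + (m2 F e f t c).card +
      (ep F x y v + ep F x y t + ep F x y b + ep F x y c) := by
  have hl' : (lb F P x y a u).Nonempty := by rw [Helper9.Res.lb_comm]; exact hl
  -- `{v, t, b}` if `c ∈ E`, `{v, t, c}` if `b ∈ E`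
  have k1 := inner_kill h p hl
  have k2 := inner_kill h p.swap23 hl
  -- `{b, c, v}` if `t ∈ E`, `{b, c, t}` if `v ∈ E`
  have k3 := inner_kill h p.tr hl'
  have k4 := inner_kill h p.tr.swap23 hl'
  have c1 := card_m2_eq h p
  have c2 := card_m2_eq h p.swap23
  -- translate
  have a1 : ms F b v c = ms F v b c := ms_comm b v c
  have a2 : ms F c t b = ms F t c b := ms_comm c t b
  omega

/-- one label at `u a`: the `x`, `y` kills -/
theorem xy_pair {e f : Finset V} {u v t a b c : V} (p : Pm P e f u v t a b c)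
    (hl : (lb F P x y u a).Nonempty) :
    1 ≤ ms F v b x + ms F t c y := by
  obtain ⟨w, hw⟩ := hl
  obtain ⟨w1, w2, w3, w4⟩ := mem_lb.1 hw
  have e1 := block_eq h p.he p.hu p.hv p.ht p.huv p.hut p.hvt
  have e2 := block_eq h p.hf p.ha p.hb p.hc p.hab p.hac p.hbc
  by_contra hcon
  push Not at hcon
  have k1 : ms F x v b = 0 := by
    have := ms_rot (F := F) x v b
    omega
  have k2 : ms F y t c = 0 := by
    have := ms_rot (F := F) y t c
    omega
  exact label_xy (toMM h) h.ne h.avx h.avy (u := u) (v := v) (t := t) (a := a) (b := b) (c := c)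
    (by rw [e1]; exact p.he) (by rw [e2]; exact p.hf) (by rw [e1, e2]; exact p.hef) w2 w3 w4 w1
    (mem_of_ms k1) (mem_of_ms k2)

/-- the types in terms of the three points -/
theorem ty_pm {e f : Finset V} {u v t a b c : V} (p : Pm P e f u v t a b c) :
    ty F x y e = ep F x y u + ep F x y v + ep F x y t ∧
      ty F x y f = ep F x y a + ep F x y b + ep F x y c := by
  have e1 := block_eq h p.he p.hu p.hv p.ht p.huv p.hut p.hvt
  have e2 := block_eq h p.hf p.ha p.hb p.hc p.hab p.hac p.hbc
  constructor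
  · rw [ty_eq, ← e1, sum3 p.huv p.hut p.hvt]
  · rw [ty_eq, ← e2, sum3 p.hab p.hac p.hbc]

/-- **(K_pi)**, triples of `VS P` -/
theorem pair_mm {e f : Finset V} {u v t a b c : V} (p : Pm P e f u v t a b c)
    (hl : (lb F P x y u a).Nonempty) :
    3 * s + (ep F x y u + ep F x y a) ≤ mm F P e f v b + mm F P e f t c + j + 2 := by
  have h1 := m3_pair h p hl
  have h2 := inner_pair h p hl
  obtain ⟨h3, h4⟩ := ty_pm h p
  unfold mm
  omega

/-! ### The same over `U = VS P + x + y` -/

theorem sub_UU : VS P ⊆ UU P x y := fun _ hv => mem_insert_of_mem (mem_insert_of_mem hv)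

/-- missing triples of `U` through a cell -/
theorem missAt_cell {e f : Finset V} {u v t a b c : V} (p : Pm P e f u v t a b c) :
    (missAt F (UU P x y) {t, c}).card = mm F P e f t c + ms F t c x + ms F t c y := by
  classical
  have htc : t ≠ c := (toMM h).neq p.he p.hf p.hef p.ht p.hc
  have htV : t ∈ VS P := subset_VS p.he p.ht
  have hcV : c ∈ VS P := subset_VS p.hf p.hc
  have htx : t ≠ x := by rintro rfl; exact h.avx htV
  have hty : t ≠ y := by rintro rfl; exact h.avy htV
  have hcx : c ≠ x := by rintro rfl; exact h.avx hcV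
  have hcy : c ≠ y := by rintro rfl; exact h.avy hcV
  have hp : ({t, c} : Finset V) ⊆ UU P x y := by
    intro z hz
    simp only [mem_insert, mem_singleton] at hz
    rcases hz with rfl | rfl
    · exact sub_UU h htV
    · exact sub_UU h hcV
  -- number of missing triples = number of third points
  have hA : (missAt F (UU P x y) {t, c}).card =
      ((UU P x y \ {t, c}).filter (fun z => ¬ insert z ({t, c} : Finset V) ∈ F)).card := by
    have h1 := inN_add_missAt (F := F) hp (card_pair htc)
    have h2 := card_filter_add_card_filter_not (s := UU P x y \ {t, c})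
      (fun z => insert z ({t, c} : Finset V) ∈ F)
    rw [card_sdiff_of_subset hp, card_pair htc] at h2
    unfold inN at h1
    omega
  have hB : (UU P x y \ {t, c}) =
      insert x (insert y (VS (P \ {e, f}) ∪ ((e ∪ f) \ {t, c}))) := by
    have hVS : VS P = VS (P \ {e, f}) ∪ (e ∪ f) := by
      ext z
      simp only [mem_union, mem_VS]
      constructor
      · rintro ⟨g, hg, hz⟩
        by_cases hgef : g ∈ ({e, f} : Finset (Finset V))
        · simp only [mem_insert, mem_singleton] at hgef
          rcases hgef with rfl | rfl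
          · exact Or.inr (Or.inl hz)
          · exact Or.inr (Or.inr hz)
        · exact Or.inl ⟨g, mem_sdiff.2 ⟨hg, hgef⟩, hz⟩
      · rintro (⟨g, hg, hz⟩ | hz | hz)
        · exact ⟨g, (mem_sdiff.1 hg).1, hz⟩
        · exact ⟨e, p.he, hz⟩
        · exact ⟨f, p.hf, hz⟩
    unfold UU
    rw [hVS]
    ext z
    have key : z ∈ VS (P \ {e, f}) → z ≠ t ∧ z ≠ c := by
      intro hz
      obtain ⟨g, hg, hzg⟩ := mem_VS.1 hz
      obtain ⟨hgP, hgef⟩ := mem_sdiff.1 hg
      simp only [mem_insert, mem_singleton, not_or] at hgef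
      constructor
      · rintro rfl; exact Finset.disjoint_left.1 (h.mat g hgP e p.he hgef.1) hzg p.ht
      · rintro rfl; exact Finset.disjoint_left.1 (h.mat g hgP f p.hf hgef.2) hzg p.hc
    simp only [mem_sdiff, mem_insert, mem_union, mem_singleton, not_or]
    constructor
    · rintro ⟨h1 | h1 | h1 | h1, h2⟩
      · exact Or.inl h1
      · exact Or.inr (Or.inl h1)
      · exact Or.inr (Or.inr (Or.inl h1))
      · exact Or.inr (Or.inr (Or.inr ⟨h1, h2⟩))
    · rintro (rfl | rfl | h1 | ⟨h1, h2⟩)
      · exact ⟨Or.inl rfl, htx.symm, hcx.symm⟩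
      · exact ⟨Or.inr (Or.inl rfl), hty.symm, hcy.symm⟩
      · exact ⟨Or.inr (Or.inr (Or.inl h1)), key h1⟩
      · exact ⟨Or.inr (Or.inr (Or.inr h1)), h2⟩
  have hins : ∀ z, insert z ({t, c} : Finset V) = {t, c, z} := by
    intro z; ext q; simp only [mem_insert, mem_singleton]; tauto
  have hsubV : VS (P \ {e, f}) ∪ ((e ∪ f) \ {t, c}) ⊆ VS P := by
    intro z hz
    simp only [mem_union, mem_sdiff] at hz
    rcases hz with hz | ⟨hz | hz, -⟩
    · obtain ⟨g, hg, hzg⟩ := mem_VS.1 hz
      exact subset_VS (mem_sdiff.1 hg).1 hzg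
    · exact subset_VS p.he hz
    · exact subset_VS p.hf hz
  have hy' : y ∉ VS (P \ {e, f}) ∪ ((e ∪ f) \ {t, c}) := fun hz => h.avy (hsubV hz)
  have hx' : x ∉ insert y (VS (P \ {e, f}) ∪ ((e ∪ f) \ {t, c})) := by
    rw [mem_insert, not_or]
    exact ⟨h.ne, fun hz => h.avx (hsubV hz)⟩
  have hdisj : Disjoint (VS (P \ {e, f})) ((e ∪ f) \ {t, c}) := by
    rw [Finset.disjoint_left]
    intro z hz hz'
    obtain ⟨g, hg, hzg⟩ := mem_VS.1 hz
    obtain ⟨hgP, hgef⟩ := mem_sdiff.1 hg
    simp only [mem_insert, mem_singleton, not_or] at hgef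
    rw [mem_sdiff, mem_union] at hz'
    rcases hz'.1 with h1 | h1
    · exact Finset.disjoint_left.1 (h.mat g hgP e p.he hgef.1) hzg h1
    · exact Finset.disjoint_left.1 (h.mat g hgP f p.hf hgef.2) hzg h1
  rw [hA, hB, card_filter, sum_insert hx', sum_insert hy', sum_union hdisj]
  simp_rw [hins]
  unfold mm m3 m2
  rw [card_filter, card_filter]
  unfold ms
  have i1 : ∀ z : V, (if ({t, c, z} : Finset V) ∉ F then 1 else 0) =
      (if ({t, c, z} : Finset V) ∈ F then 0 else 1) := by
    intro z; split_ifs <;> simp_all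
  simp_rw [i1]
  omega

/-- the labels of a pair of points of `VS P`: `dg` over `U` -/
theorem dg_cell {a b : V} (hab : a ≠ b) (ha : a ∈ VS P) (hb : b ∈ VS P) :
    dg F (UU P x y) {a, b} = (lb F P x y a b).card := by
  classical
  unfold dg
  symm
  refine card_bij (fun w _ => {a, b, w}) ?_ ?_ ?_
  · intro w hw
    obtain ⟨w1, w2, w3, w4⟩ := mem_lb.1 hw
    rw [mem_filter]
    refine ⟨w1, ?_⟩
    ext z
    simp only [mem_inter, mem_insert, mem_singleton, UU]
    constructor
    · rintro ⟨rfl | rfl | rfl, hz⟩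
      · exact Or.inl rfl
      · exact Or.inr rfl
      · rcases hz with rfl | rfl | hz
        · exact absurd rfl w3
        · exact absurd rfl w4
        · exact absurd hz w2
    · rintro (rfl | rfl)
      · exact ⟨Or.inl rfl, Or.inr (Or.inr ha)⟩
      · exact ⟨Or.inr (Or.inl rfl), Or.inr (Or.inr hb)⟩
  · intro w hw w' _ heq
    obtain ⟨-, w2, -, -⟩ := mem_lb.1 hw
    have : w ∈ ({a, b, w'} : Finset V) := by rw [← heq]; simp
    simp only [mem_insert, mem_singleton] at this
    rcases this with rfl | rfl | h1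
    · exact absurd ha w2
    · exact absurd hb w2
    · exact h1
  · intro g hg
    obtain ⟨hgF, hgU⟩ := mem_filter.1 hg
    have hsub : ({a, b} : Finset V) ⊆ g := by rw [← hgU]; exact inter_subset_left
    have hcd : (g \ {a, b}).card = 1 := by
      rw [card_sdiff_of_subset hsub, h.three g hgF, card_pair hab]
    obtain ⟨w, hw⟩ := card_eq_one.1 hcd
    have hwm : w ∈ g \ {a, b} := by rw [hw]; exact mem_singleton_self w
    obtain ⟨hwg, hwab⟩ := mem_sdiff.1 hwm
    have hins : ({a, b, w} : Finset V) = g := by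
      have h4 : ({a, b, w} : Finset V) = {w} ∪ {a, b} := by
        ext v; simp only [mem_insert, mem_singleton, mem_union]; tauto
      rw [h4, ← hw, sdiff_union_of_subset hsub]
    have hwU : w ∉ UU P x y := by
      intro hwU
      apply hwab
      rw [← hgU]
      exact mem_inter.2 ⟨hwg, hwU⟩
    simp only [UU, mem_insert, not_or] at hwU
    exact ⟨w, mem_lb.2 ⟨by rw [hins]; exact hgF, hwU.2.2, hwU.1, hwU.2.1⟩, hins⟩

/-- **(K_pi)** over `U`: `m(vb) + m(tc) ≥ 3 s - j + #J(ua)` -/
theorem pair_U {e f : Finset V} {u v t a b c : V} (p : Pm P e f u v t a b c)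
    (hl : (lb F P x y u a).Nonempty) :
    3 * s + (ep F x y u + ep F x y a) ≤
      (missAt F (UU P x y) {v, b}).card + (missAt F (UU P x y) {t, c}).card + j := by
  have h1 := pair_mm h p hl
  have h2 := missAt_cell h p
  have h3 := missAt_cell h p.swap23
  have h4 := xy_pair h p hl
  have h5 := xy_pair h p.swap23 hl
  omega

/-- two labels with different representatives: inner triples through the third cell -/
theorem inner_zero {e f : Finset V} {u v t a b c : V} (p : Pm P e f u v t a b c) {w w' : V}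
    (hw : w ∈ lb F P x y u a) (hw' : w' ∈ lb F P x y v b) :
    4 ≤ (m2 F e f t c).card + (ep F x y u + ep F x y a + ep F x y v + ep F x y b) := by
  have hl : (lb F P x y u a).Nonempty := ⟨w, hw⟩
  have hl' : (lb F P x y v b).Nonempty := ⟨w', hw'⟩
  have hlt : (lb F P x y a u).Nonempty := by rw [Helper9.Res.lb_comm]; exact hl
  have hlt' : (lb F P x y b v).Nonempty := by rw [Helper9.Res.lb_comm]; exact hl'
  -- label `u a`: `{t, v, c}` if `b ∈ E`; `{c, b, t}` if `v ∈ E`
  have k1 := inner_kill h p.swap23 hl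
  have k2 := inner_kill h p.tr.swap23 hlt
  -- label `v b`: `{t, u, c}` if `a ∈ E`; `{c, a, t}` if `u ∈ E`
  have k3 := inner_kill h p.rot hl'
  have k4 := inner_kill h p.tr.rot hlt'
  have c1 := card_m2_eq h p
  have a1 : ms F c t b = ms F t c b := ms_comm c t b
  have a2 : ms F c t a = ms F t c a := ms_comm c t a
  omega

/-- **(Z_pi)**, triples of `VS P` -/
theorem zero_mm {e f : Finset V} {u v t a b c : V} (p : Pm P e f u v t a b c) {w w' : V}
    (hw : w ∈ lb F P x y u a) (hw' : w' ∈ lb F P x y v b) (hww : w ≠ w') :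
    3 * s ≤ mm F P e f t c + j := by
  have h1 := m3_zero h p hw hw' hww
  have h2 := inner_zero h p hw hw'
  obtain ⟨h3, h4⟩ := ty_pm h p
  obtain ⟨h5, h6⟩ := zero_J h p hw hw' hww
  have h7 : ep F x y t = 1 := by unfold ep; rw [if_neg h5]
  have h8 : ep F x y c = 1 := by unfold ep; rw [if_neg h6]
  unfold mm
  omega

/-- two labels with different representatives: the third cell has no label at all apart from the
two representatives, and neither `x` nor `y` as a neighbour -/
theorem zero_N {e f : Finset V} {u v t a b c : V} (p : Pm P e f u v t a b c) {w w' z : V}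
    (hw : w ∈ lb F P x y u a) (hw' : w' ∈ lb F P x y v b) (hww : w ≠ w') (hz : z ∉ VS P)
    (hzw : z ≠ w) (hzw' : z ≠ w') : ms F t c z = 1 := by
  apply ms_eq_one
  intro hF
  obtain ⟨w1, w2, w3, w4⟩ := mem_lb.1 hw
  obtain ⟨w1', w2', w3', w4'⟩ := mem_lb.1 hw'
  have := norep h p w (mem_sdiff.2 ⟨mem_N.2 w1, w2⟩) w' (mem_sdiff.2 ⟨mem_N.2 w1', w2'⟩) z
    (mem_sdiff.2 ⟨mem_N.2 hF, hz⟩)
  rcases this with h1 | h1 | h1
  · exact hww h1
  · exact hzw h1.symm
  · exact hzw' h1.symm

/-- **(Z_pi)** over `U` -/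
theorem zero_U {e f : Finset V} {u v t a b c : V} (p : Pm P e f u v t a b c) {w w' : V}
    (hw : w ∈ lb F P x y u a) (hw' : w' ∈ lb F P x y v b) (hww : w ≠ w') :
    3 * s + 2 ≤ (missAt F (UU P x y) {t, c}).card + j := by
  have h1 := zero_mm h p hw hw' hww
  have h2 := missAt_cell h p
  obtain ⟨-, -, w3, w4⟩ := mem_lb.1 hw
  obtain ⟨-, -, w3', w4'⟩ := mem_lb.1 hw'
  have h3 := zero_N h p hw hw' hww h.avx w3.symm w3'.symm
  have h4 := zero_N h p hw hw' hww h.avy w4.symm w4'.symm
  omega

end

end Helper54.Res
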