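import Pool.Agent.Helper13.Res.GKill
import Pool.Agent.Helper9.Res.Cls
import Pool.Agent.Helper65.Res.Frame

/-!
# Route A, P4: a block with an edge `{u, w, w'}` against a block of type 0

`{u, w, w'}` is an edge with `w`, `w'` outside `VS P ∪ {x, y}` and `u` a point of the block `e`.
If the block `f` lies in `E` then every perfect matching of the cells of `e`, `f` satisfies
`T3 ≤ FL s j`, where
`FL s j = max (min (-(s+j)-6) (2(s-2)-3j)) (min (-3s-j) (-3j))`.
-/

namespace Helper54.Res

open Finset Res12 Helper1.Res Helper9.Res Helper13.Res Helper70.Res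
open RouteA hiding T3 lb_comm dW_comm lam_comm

set_option linter.unusedSectionVars false

variable {V : Type} [Fintype V] [DecidableEq V]
variable {F P : Finset (Finset V)} {s j : ℕ} {x y : V}

/-- the bound for a flagged block and a block of type 0, per perfect matching -/
def FL (s j : ℕ) : ℤ :=
  max (min (-((s : ℤ) + j) - 6) (2 * (s : ℤ) - 4 - 3 * j)) (min (-3 * (s : ℤ) - j) (-3 * j))

section
variable (h : SetUp F s j P x y)
include h

/-- `a ∈ E`: the labels of `v b` are `w` or `w'` -/
theorem g_lb_sub {e f : Finset V} {u v t a b c w w' : V} (p : Pm P e f u v t a b c)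
    (hG : GE F P x y u w w') (ha : a ∈ N F x y) : lb F P x y v b ⊆ {w, w'} := by
  intro z hz
  simp only [mem_insert, mem_singleton]
  by_contra hcon
  push Not at hcon
  exact (gk_label h p hG hz (Ne.symm hcon.1) (Ne.symm hcon.2)).1 ha

/-- `a ∈ E`: the labels of `v b` and of `t c` together -/
theorem g_lb_two {e f : Finset V} {u v t a b c w w' : V} (p : Pm P e f u v t a b c)
    (hG : GE F P x y u w w') (ha : a ∈ N F x y) :
    (lb F P x y v b).card + (lb F P x y t c).card ≤ 2 := by
  have h1 := (card_le_card (g_lb_sub h p hG ha)).trans card_le_two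
  have h2 := (card_le_card (g_lb_sub h p.swap23 hG ha)).trans card_le_two
  have h3 := norep2 (B := lb F P x y v b) (C := lb F P x y t c) (by
    intro z hz z' hz'
    by_contra hcon
    exact (zero_J h p.rot hz hz' hcon).2 ha)
  omega

/-- the edges of `v b` and `t c` with `x`, `y` -/
theorem g_xy_two {e f : Finset V} {u v t a b c w w' : V} (p : Pm P e f u v t a b c)
    (hG : GE F P x y u w w') :
    (N F v b ∩ {x, y}).card + (N F t c ∩ {x, y}).card ≤ 2 := by
  have h1 : (N F v b ∩ {x, y}).card ≤ 2 := (card_le_card inter_subset_right).trans card_le_two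
  have h2 : (N F t c ∩ {x, y}).card ≤ 2 := (card_le_card inter_subset_right).trans card_le_two
  have key : ∀ z : V, z ∈ ({x, y} : Finset V) → z ∉ VS P ∧ w ≠ z ∧ w' ≠ z := by
    intro z hz
    simp only [mem_insert, mem_singleton] at hz
    rcases hz with rfl | rfl
    · exact ⟨h.avx, hG.x1, hG.x2⟩
    · exact ⟨h.avy, hG.y1, hG.y2⟩
  have h3 := norep2 (B := N F v b ∩ {x, y}) (C := N F t c ∩ {x, y}) (by
    intro z hz z' hz'
    by_contra hcon
    rw [mem_inter] at hz hz'
    obtain ⟨k1, k2, k3⟩ := key z hz.2
    obtain ⟨l1, l2, l3⟩ := key z' hz'.2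
    exact gk_rep h p hG (mem_sdiff.2 ⟨hz.1, k1⟩) (mem_sdiff.2 ⟨hz'.1, l1⟩) hcon k2 l2 k3 l3)
  omega

/-- `a ∈ E`: the two other cells of the matching have `λ + λ' ≤ 0` -/
theorem g_lam_two {e f : Finset V} {u v t a b c w w' : V} (p : Pm P e f u v t a b c)
    (hG : GE F P x y u w w') (ha : a ∈ N F x y) : lam F P v b + lam F P t c ≤ 0 := by
  have h1 := g_lb_two h p hG ha
  have h2 := g_xy_two h p hG
  unfold lam
  rw [h.dW_eq v b, h.dW_eq t c]
  omega

/-- `f` of type 0: the two other cells together have `3 s` missing triples of `VS P` -/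
theorem g_T3 {e f : Finset V} {u v t a b c w w' : V} (p : Pm P e f u v t a b c)
    (hG : GE F P x y u w w') (ha : a ∈ N F x y) (hb : b ∈ N F x y) (hc : c ∈ N F x y) :
    T3 F P e f u v t a b c ≤ 2 * lam F P u a + 3 * (lam F P v b + lam F P t c) - 3 * s - j := by
  have h1 := tau_le h p.he p.hf p.hef p.hu p.ha
  have h2 := gk_m3E h p hG ha
  have h3 := (gk_m2 h p hG).1
  rw [ep_of_mem ha, ep_of_mem hb, ep_of_mem hc] at h3
  unfold T3
  unfold tau at h1 ⊢
  omega

/-- the codegree condition three times -/
theorem T3_cod {e f : Finset V} {u v t a b c : V} (p : Pm P e f u v t a b c) :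
    T3 F P e f u v t a b c ≤ 2 * (lam F P u a + lam F P v b + lam F P t c) - 3 * j := by
  have h1 := tau_le h p.he p.hf p.hef p.hu p.ha
  have h2 := tau_le h p.he p.hf p.hef p.hv p.hb
  have h3 := tau_le h p.he p.hf p.hef p.ht p.hc
  unfold T3
  omega

/-- a big cell `u a` and a label of `t c` in a block of type 0 -/
theorem g_big_aux {e f : Finset V} {u v t a b c : V} (p : Pm P e f u v t a b c)
    (hb : b ∈ N F x y) (h3 : 3 ≤ dW F P u a) (h0 : dW F P v b = 0)
    (hl : (lb F P x y t c).Nonempty) :
    lam F P u a = 1 ∧ lam F P v b + lam F P t c ≤ -1 := by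
  -- all labels of `u a` and of `t c` are equal
  have hone : ∀ z ∈ lb F P x y u a, ∀ z' ∈ lb F P x y t c, z = z' := by
    intro z hz z' hz'
    by_contra hcon
    exact (zero_J h p.swap23 hz hz' hcon).2 hb
  have k1 := dW_le_lb h u a
  have k2 := dW_le_lb h t c
  have hlu : 0 < (lb F P x y u a).card := by omega
  have hlt : 0 < (lb F P x y t c).card := card_pos.2 hl
  have hn := norep2 hone
  unfold lam
  omega

/-- **P4, one matching**: `f` of type 0, the edge at `u` -/
theorem g_zero {e f : Finset V} {u v t a b c w w' : V} (hs : 3 ≤ s) (p : Pm P e f u v t a b c)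
    (hG : GE F P x y u w w') (ha : a ∈ N F x y) (hb : b ∈ N F x y) (hc : c ∈ N F x y) :
    T3 F P e f u v t a b c ≤ FL s j := by
  have h1 := g_T3 h p hG ha hb hc
  have h2 := g_lam_two h p hG ha
  have h3 := T3_cod h p
  have h4 := lam_le h u a
  unfold FL
  by_cases hd : 3 ≤ dW F P u a
  · have key : (lam F P v b + lam F P t c ≤ -2) ∨
        (lam F P u a = 1 ∧ lam F P v b + lam F P t c ≤ -1) := by
      have k1 := dW_le_lb h u a
      have hl : (lb F P x y u a).Nonempty := by rw [← card_pos]; omega
      have hn := norep_fat (norep h p) hd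
      have e2 : (N F v b \ VS P).card = dW F P v b := rfl
      have e3 : (N F t c \ VS P).card = dW F P t c := rfl
      rw [e2, e3] at hn
      rcases hn with hn | hn | ⟨hn, hn'⟩
      · by_cases hlt : (lb F P x y t c).Nonempty
        · exact Or.inr (g_big_aux h p hb hd hn hlt)
        · left
          have hlv : lb F P x y v b = ∅ := by
            rw [← card_eq_zero]
            have := lb_card_le h v b
            omega
          exact lam_two_le h p hl hlv (not_nonempty_iff_eq_empty.1 hlt)
      · by_cases hlv : (lb F P x y v b).Nonempty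
        · have := g_big_aux h p.swap23 hc hd hn hlv
          right
          omega
        · left
          have hlt : lb F P x y t c = ∅ := by
            rw [← card_eq_zero]
            have := lb_card_le h t c
            omega
          exact lam_two_le h p hl (not_nonempty_iff_eq_empty.1 hlv) hlt
      · left
        unfold lam
        omega
    rcases key with k | ⟨k, k2⟩ <;> omega
  · have h5 : lam F P u a ≤ 0 := by
      unfold lam
      omega
    omega

/-- **P4**: `e` has an edge with a point `z` of `e` and two points outside, `f` is of type 0;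
every perfect matching of the cells -/
theorem flag_zero (hs : 3 ≤ s) {e f : Finset V} {z : V} (h0 : ty F x y f = 0) (hz : z ∈ e)
    (hg : (Gp F P x y z).Nonempty) {u v t a b c : V} (p : Pm P e f u v t a b c) :
    T3 F P e f u v t a b c ≤ FL s j := by
  obtain ⟨k, hk⟩ := hg
  obtain ⟨w, w', hG, -⟩ := exists_GE h hk
  have hE : ∀ q ∈ f, q ∈ N F x y := by
    intro q hq
    by_contra hcon
    unfold ty at h0
    rw [card_eq_zero] at h0
    have : q ∈ f \ N F x y := mem_sdiff.2 ⟨hq, hcon⟩
    rw [h0] at this
    exact notMem_empty _ this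
  have ha := hE a p.ha
  have hb := hE b p.hb
  have hc := hE c p.hc
  have e1 := block_eq h p.he p.hu p.hv p.ht p.huv p.hut p.hvt
  rw [← e1] at hz
  simp only [mem_insert, mem_singleton] at hz
  rcases hz with rfl | rfl | rfl
  · exact g_zero h hs p hG ha hb hc
  · have := g_zero h hs p.rot hG hb hc ha
    rwa [T3_rot] at this
  · have := g_zero h hs p.rot.rot hG hc ha hb
    rwa [T3_rot, T3_rot] at this

/-- the nine cells of a flagged block and a block of type 0 -/
theorem flag_zero_sum (hs : 3 ≤ s) {e f : Finset V} {z : V} (he : e ∈ P) (hf : f ∈ P)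
    (hef : e ≠ f) (h0 : ty F x y f = 0) (hz : z ∈ e) (hg : (Gp F P x y z).Nonempty) :
    ∑ a ∈ e, ∑ b ∈ f, tau F P e f a b ≤ 3 * FL s j :=
  sum_cells_le (tau F P e f) (FL s j) h.threeP he hf hef
    (fun _ _ _ _ _ _ p => flag_zero h hs h0 hz hg p)

/-- `FL` in the shape of the final arithmetic -/
theorem FL_eq (s j : ℕ) : FL s j =
    max (min (-((s : ℤ) + j) - 6) (2 * s - 4 - 3 * j)) (min (-3 * (s : ℤ) - j + 0) (-3 * j)) := by
  unfold FL
  rw [add_zero]

end

end Helper54.Res
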